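import Pool.Agent.Helper76.CQ.Defs

/-!
# Project CQ, piece CQ-5b: the linearised equations after one step
-/

namespace Pool.Agent.Helper64.CQ

open MvPolynomial Pool.Agent.Helper76.CY Pool.Agent.Helper76.CQ Filter Topology

/-- The vanishing coefficients along the four-space. -/
theorem zero_all {K : Type*} [Field K] {D : Ten K} (hD : Window D) (i j k : Fin 10)
    (hi : i ≤ 3) (hj : j ≤ 3) (hk : k ≤ 3) (h : ¬ (i = 0 ∧ j = 3 ∧ k = 3))
    (h' : ¬ (i = 3 ∧ j = 0 ∧ k = 3)) (h'' : ¬ (i = 3 ∧ j = 3 ∧ k = 0)) : D i j k = 0 := by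
  have key : ∀ a b c : Fin 10, a ≤ b → b ≤ c → c ≤ 3 → ¬ (a = 0 ∧ b = 3 ∧ c = 3) →
      D a b c = 0 := fun a b c h1 h2 h3 h4 => hD.zero a b c h1 h2 h3 h4
  rcases le_total i j with h1 | h1 <;> rcases le_total j k with h2 | h2 <;>
    rcases le_total i k with h3 | h3
  · exact key i j k h1 h2 hk h
  · exact key i j k h1 h2 hk h
  · rw [hD.swap23]; exact key i k j h3 h2 hj (by tauto)
  · rw [hD.swap23, hD.swap12]; exact key k i j h3 h1 hj (by tauto)
  · rw [hD.swap12]; exact key j i k h1 h3 hk (by tauto)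
  · rw [hD.swap12, hD.swap23]; exact key j k i h2 h3 hi (by tauto)
  · rw [hD.swap12, hD.swap23, hD.swap12]; exact key k j i h2 h1 hi (by tauto)
  · rw [hD.swap12, hD.swap23, hD.swap12]; exact key k j i h2 h1 hi (by tauto)

/-- The tangent vector after the shift. -/
theorem tv_shift {K : Type*} [Field K] (τ' : Idx → K) (i : Fin 3) (u : Fin 10 → K)
    (h1 : u 1 = 0) (h2 : u 2 = 0) (h3 : u 3 = 0)
    (h : ∀ k : Fin 7, τ' (i, k) = u (Fin.castLE (by norm_num) k + 4)) :
    tv τ' i = fun j => u (j + 1) := by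
  funext j
  fin_cases j
  · show (0 : K) = u 1
    rw [h1]
  · show (0 : K) = u 2
    rw [h2]
  · show (0 : K) = u 3
    rw [h3]
  · exact h 0
  · exact h 1
  · exact h 2
  · exact h 3
  · exact h 4
  · exact h 5
  · exact h 6

/-- Standard vectors after the shift. -/
theorem bv_shift {K : Type*} [Field K] (j : Fin 10) :
    bv K j = fun s => bv K (j + 1) (s + 1) := by
  funext s
  rw [bv_apply, bv_apply]
  by_cases h : s = j
  · rw [if_pos h, if_pos (by rw [h])]
  · rw [if_neg h, if_neg (fun h1 => h (add_right_cancel h1))]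

/-- The trilinear form after the shift. -/
theorem tri_shift_vec {K : Type*} [Field K] (D : Ten K) (τ' : Idx → K) (i : Fin 3)
    (u : Fin 10 → K) (h : tv τ' i = fun j => u (j + 1)) (j k : Fin 10) :
    tri (shift D) (tv τ' i) (bv K j) (bv K k) = tri D u (bv K (j + 1)) (bv K (k + 1)) := by
  rw [h, bv_shift j, bv_shift k]
  exact tri_shift D _ _ _

/-- Symmetry of the shifted coefficients. -/
theorem shift_swap12 {K : Type*} [Field K] {D : Ten K} (hD : Window D) (i j k : Fin 10) :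
    shift D i j k = shift D j i k := hD.swap12 _ _ _

/-- Symmetry of the shifted coefficients. -/
theorem shift_swap23 {K : Type*} [Field K] {D : Ten K} (hD : Window D) (i j k : Fin 10) :
    shift D i j k = shift D i k j := hD.swap23 _ _ _

/-- The linearised equations in symmetric form. -/
theorem tanVal_sym {K : Type*} [Field K] {D : Ten K} (h12 : ∀ i j k, D i j k = D j i k)
    (h23 : ∀ i j k, D i j k = D i k j) (τ : Idx → K) (i j k : Fin 3) :
    tanVal D τ i j k = tri D (tv τ i) (bv K (c3 j)) (bv K (c3 k)) +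
      tri D (tv τ j) (bv K (c3 i)) (bv K (c3 k)) + tri D (tv τ k) (bv K (c3 i)) (bv K (c3 j)) := by
  rw [tanVal]
  congr 1
  · congr 1
    rw [tri_swap12 h12]
  · rw [tri_swap23 h23, tri_swap12 h12]

theorem step_tan {K : Type*} [Field K] [CharZero K] (D : Ten K) (hD : Window D)
    (τ τ' : Idx → K) (h : IsStep D τ τ') (i j k : Fin 3) :
    tanVal (shift D) τ' i j k =
      if i = 2 ∨ j = 2 ∨ k = 2 then 0 else tanVal D τ (i + 1) (j + 1) (k + 1) := by
  obtain ⟨m, c, m0, m1, m2, m3, hm, hc0, hc1, hc2, hτ⟩ := h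
  -- the vectors of the new tangent vector
  have hkey : ∀ k : Fin 7, (Fin.castLE (by norm_num) k + 4 : Fin 10) ≠ 3 := by decide
  have hkey0 : ∀ j : Fin 10, j < 3 → ∀ i : Fin 3, tv τ i j = 0 := by
    intro j hj i
    exact dif_pos (show (j : ℕ) < 3 from hj)
  have tv0 : tv τ' 0 = fun j => (tv τ 1 - c 0 • bv K 0 - τ (1, 0) • bv K 3) (j + 1) := by
    refine tv_shift τ' 0 _ ?_ ?_ ?_ ?_
    · simp [bv_apply, hkey0 1 (by decide)]
    · simp [bv_apply, hkey0 2 (by decide)]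
    · simp [bv_apply, tv]
    · intro k
      rw [(hτ k).1, Pi.sub_apply (tv τ 1 - c 0 • bv K 0), Pi.smul_apply (τ (1, 0)), bv_apply,
        if_neg (hkey k), smul_zero, sub_zero]
  have tv1 : tv τ' 1 = fun j => (tv τ 2 - c 1 • bv K 0 - τ (2, 0) • bv K 3) (j + 1) := by
    refine tv_shift τ' 1 _ ?_ ?_ ?_ ?_
    · simp [bv_apply, hkey0 1 (by decide)]
    · simp [bv_apply, hkey0 2 (by decide)]
    · simp [bv_apply, tv]
    · intro k
      rw [(hτ k).2.1, Pi.sub_apply (tv τ 2 - c 1 • bv K 0), Pi.smul_apply (τ (2, 0)), bv_apply,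
        if_neg (hkey k), smul_zero, sub_zero]
  have tv2 : tv τ' 2 = fun j => (m - c 2 • bv K 0) (j + 1) := by
    refine tv_shift τ' 2 _ ?_ ?_ ?_ ?_
    · simp [bv_apply, m1]
    · simp [bv_apply, m2]
    · simp [bv_apply, m3]
    · intro k
      exact (hτ k).2.2
  -- the two small indices
  let s : Fin 2 → Fin 3 := Fin.castSucc
  have hs1 : ∀ a : Fin 2, c3 (s a) + 1 = c3 (s a + 1) := by decide
  have hs2 : c3 2 + 1 = 3 := by decide
  have hs3 : ∀ a : Fin 2, s a ≠ 2 := by decide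
  have hs4 : ∀ a : Fin 2, c3 (s a + 1) ≤ 3 := by decide
  have hs5 : ∀ a : Fin 2, c3 (s a + 1) ≠ 3 := by decide
  have hs6 : ∀ a : Fin 2, c3 (s a + 1) ≠ 0 := by decide
  have hs7 : (0 : Fin 10) ≠ 3 := by decide
  have hs8 : ∀ i : Fin 3, i = 2 ∨ ∃ a : Fin 2, i = s a := by decide
  have hs9 : (0 : Fin 10) ≤ 3 := by decide
  have z : ∀ p q r : Fin 10, p ≤ 3 → q ≤ 3 → r ≤ 3 → ¬ (p = 0 ∧ q = 3 ∧ r = 3) →
    ¬ (p = 3 ∧ q = 0 ∧ r = 3) → ¬ (p = 3 ∧ q = 3 ∧ r = 0) → D p q r = 0 := zero_all hD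
  have tD : ∀ p q r : Fin 10, tri D (bv K p) (bv K q) (bv K r) = D p q r := by
    intro p q r
    rw [tri_bv]
    rfl
  -- the values
  have G0 : ∀ (a : Fin 2) (q r : Fin 10), tri (shift D) (tv τ' (s a)) (bv K q) (bv K r) =
      tri D (tv τ (s a + 1)) (bv K (q + 1)) (bv K (r + 1)) - c (s a) * D 0 (q + 1) (r + 1) -
        τ (s a + 1, 0) * D 3 (q + 1) (r + 1) := by
    intro a q r
    have e : tri (shift D) (tv τ' (s a)) (bv K q) (bv K r) = tri D (tv τ (s a + 1) -
        c (s a) • bv K 0 - τ (s a + 1, 0) • bv K 3) (bv K (q + 1)) (bv K (r + 1)) := by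
      fin_cases a
      · exact tri_shift_vec D τ' 0 _ tv0 q r
      · exact tri_shift_vec D τ' 1 _ tv1 q r
    rw [e, tri_sub_left, tri_sub_left, tri_smul_left, tri_smul_left, tD, tD]
  have G2 : ∀ (q r : Fin 10), tri (shift D) (tv τ' 2) (bv K q) (bv K r) =
      tri D m (bv K (q + 1)) (bv K (r + 1)) - c 2 * D 0 (q + 1) (r + 1) := by
    intro q r
    rw [tri_shift_vec D τ' 2 _ tv2 q r, tri_sub_left, tri_smul_left, tD]
  have hca : ∀ a : Fin 2, c (s a) * D 0 3 3 = tri D (tv τ (s a + 1)) (bv K 3) (bv K 3) +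
      2 * tri D (bv K (c3 (s a + 1))) (bv K 3) m := by
    intro a
    fin_cases a
    · exact hc0
    · exact hc1
  rw [tanVal_sym (shift_swap12 hD) (shift_swap23 hD)]
  -- one index two
  have one : ∀ a b : Fin 2, tri (shift D) (tv τ' 2) (bv K (c3 (s a))) (bv K (c3 (s b))) +
      tri (shift D) (tv τ' (s a)) (bv K (c3 (s b))) (bv K (c3 2)) +
      tri (shift D) (tv τ' (s b)) (bv K (c3 (s a))) (bv K (c3 2)) = 0 := by
    intro a b
    have e := hm (s a + 1) (s b + 1)
    have e1 : tri D (bv K 3) (tv τ (s a + 1)) (bv K (c3 (s b + 1))) =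
        tri D (tv τ (s a + 1)) (bv K (c3 (s b + 1))) (bv K 3) := by
      rw [tri_swap12 hD.swap12, tri_swap23 hD.swap23]
    have e2 : tri D (bv K 3) (bv K (c3 (s a + 1))) (tv τ (s b + 1)) =
        tri D (tv τ (s b + 1)) (bv K (c3 (s a + 1))) (bv K 3) := by
      rw [tri_swap23 hD.swap23, tri_swap12 hD.swap12, tri_swap23 hD.swap23]
    have ha5 := hs5 a
    have hb5 := hs5 b
    have ha6 := hs6 a
    have hb6 := hs6 b
    rw [G2, G0, G0, hs1, hs1, hs2, z 0 _ _ hs9 (hs4 a) (hs4 b) (by tauto) (by tauto) (by tauto),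
      z 0 _ _ hs9 (hs4 a) le_rfl (by tauto) (by tauto) (by tauto),
      z 0 _ _ hs9 (hs4 b) le_rfl (by tauto) (by tauto) (by tauto),
      z 3 _ _ le_rfl (hs4 a) le_rfl (by tauto) (by tauto) (by tauto),
      z 3 _ _ le_rfl (hs4 b) le_rfl (by tauto) (by tauto) (by tauto)]
    linear_combination e - e1 - e2
  -- two indices two
  have two : ∀ a : Fin 2, tri (shift D) (tv τ' (s a)) (bv K (c3 2)) (bv K (c3 2)) +
      2 * tri (shift D) (tv τ' 2) (bv K (c3 (s a))) (bv K (c3 2)) = 0 := by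
    intro a
    have e := hca a
    have e1 : tri D (bv K (c3 (s a + 1))) (bv K 3) m = tri D m (bv K (c3 (s a + 1))) (bv K 3) := by
      rw [tri_swap23 hD.swap23, tri_swap12 hD.swap12]
    have ha5 := hs5 a
    have ha6 := hs6 a
    rw [G2, G0, hs1, hs2, z 0 _ _ hs9 (hs4 a) le_rfl (by tauto) (by tauto) (by tauto),
      z 3 3 3 le_rfl le_rfl le_rfl (by tauto) (by tauto) (by tauto)]
    linear_combination -e - 2 * e1
  -- three
  have three : tri (shift D) (tv τ' 2) (bv K (c3 2)) (bv K (c3 2)) = 0 := by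
    have e1 : tri D (bv K 3) (bv K 3) m = tri D m (bv K 3) (bv K 3) := by
      rw [tri_swap23 hD.swap23, tri_swap12 hD.swap12]
    rw [G2, hs2]
    linear_combination -hc2 - e1
  have sym : ∀ (a : Fin 3) (q r : Fin 10), tri (shift D) (tv τ' a) (bv K q) (bv K r) =
      tri (shift D) (tv τ' a) (bv K r) (bv K q) := by
    intro a q r
    exact tri_swap23 (shift_swap23 hD) _ _ _
  rcases hs8 i with rfl | ⟨a, rfl⟩ <;> rcases hs8 j with rfl | ⟨b, rfl⟩ <;>
    rcases hs8 k with rfl | ⟨d, rfl⟩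
  · rw [if_pos (by tauto), three]
    ring
  · rw [if_pos (by tauto)]
    linear_combination two d + sym 2 (c3 2) (c3 (s d)) + sym 2 (c3 2) (c3 (s d))
  · rw [if_pos (by tauto)]
    linear_combination two b + sym 2 (c3 2) (c3 (s b))
  · rw [if_pos (by tauto)]
    linear_combination one b d + sym (s b) (c3 2) (c3 (s d)) + sym (s d) (c3 2) (c3 (s b))
  · rw [if_pos (by tauto)]
    linear_combination two a
  · rw [if_pos (by tauto)]
    linear_combination one a d + sym (s a) (c3 2) (c3 (s d))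
  · rw [if_pos (by tauto)]
    linear_combination one a b
  · rw [if_neg (by have := hs3 a; have := hs3 b; have := hs3 d; tauto),
      tanVal_sym hD.swap12 hD.swap23]
    have ha5 := hs5 a
    have ha6 := hs6 a
    have hb5 := hs5 b
    have hb6 := hs6 b
    have hd5 := hs5 d
    have hd6 := hs6 d
    rw [G0, G0, G0, hs1, hs1, hs1,
      z 0 _ _ hs9 (hs4 b) (hs4 d) (by tauto) (by tauto) (by tauto),
      z 3 _ _ le_rfl (hs4 b) (hs4 d) (by tauto) (by tauto) (by tauto),
      z 0 _ _ hs9 (hs4 a) (hs4 d) (by tauto) (by tauto) (by tauto),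
      z 3 _ _ le_rfl (hs4 a) (hs4 d) (by tauto) (by tauto) (by tauto),
      z 0 _ _ hs9 (hs4 a) (hs4 b) (by tauto) (by tauto) (by tauto),
      z 3 _ _ le_rfl (hs4 a) (hs4 b) (by tauto) (by tauto) (by tauto)]
    ring

theorem step_unique {K : Type*} [Field K] [CharZero K] (D : Ten K) (hD : Window D)
    (τ τ₁ τ₂ : Idx → K) (h₁ : IsStep D τ τ₁) (h₂ : IsStep D τ τ₂) : τ₁ = τ₂ := by
  obtain ⟨m, c, m0, m1, m2, m3, hm, hc0, hc1, hc2, hτ⟩ := h₁
  obtain ⟨n, d, n0, n1, n2, n3, hn, hd0, hd1, hd2, hσ⟩ := h₂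
  have hmn : m - n = 0 := by
    refine hD.nondeg (m - n) ?_ ?_ ?_ ?_ ?_
    · rw [Pi.sub_apply, m0, n0, sub_zero]
    · rw [Pi.sub_apply, m1, n1, sub_zero]
    · rw [Pi.sub_apply, m2, n2, sub_zero]
    · rw [Pi.sub_apply, m3, n3, sub_zero]
    · intro i j
      rw [tri_sub_left]
      linear_combination hm i j - hn i j
  have hmn' : m = n := sub_eq_zero.mp hmn
  subst hmn'
  have e0 : c 0 = d 0 := mul_right_cancel₀ hD.alpha (hc0.trans hd0.symm)
  have e1 : c 1 = d 1 := mul_right_cancel₀ hD.alpha (hc1.trans hd1.symm)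
  have e2 : c 2 = d 2 := mul_right_cancel₀ hD.alpha (hc2.trans hd2.symm)
  funext p
  obtain ⟨i, k⟩ := p
  fin_cases i
  · exact ((hτ k).1.trans (by rw [e0])).trans (hσ k).1.symm
  · exact ((hτ k).2.1.trans (by rw [e1])).trans (hσ k).2.1.symm
  · exact ((hτ k).2.2.trans (by rw [e2])).trans (hσ k).2.2.symm

end Pool.Agent.Helper64.CQ
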